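import Pool.Agent.W213.MG.Stm

/-! Project MG, part CNT: counting. -/

namespace Pool.Agent.W208.MG

open Finset

def Bad (n : ℕ) (f : ℕ → Bool) (S : Finset ℕ) : Prop :=
  0 ∈ S ∧ n - 1 ∉ S ∧ ∃ k, (∀ j ≤ k, j ∈ S) ∧ k + 1 ∉ S ∧ (∃ x ∈ S, k < x) ∧
    ∀ x ∈ S, k + 2 ≤ x → f (x - k - 1) = false

def A (n : ℕ) (f : ℕ → Bool) (k : ℕ) : Finset ℕ := (Icc 1 (n - 3 - k)).filter fun y => f y = false

def phi (k : ℕ) (Y : Finset ℕ) : Finset ℕ := range (k + 1) ∪ Y.image fun y => y + k + 1

theorem mem_phi (k : ℕ) (Y : Finset ℕ) (x : ℕ) :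
    x ∈ phi k Y ↔ x < k + 1 ∨ ∃ y ∈ Y, y + k + 1 = x := by
  simp [phi]

theorem card_bad (n : ℕ) (hn : 3 ≤ n) (f : ℕ → Bool) (D : Finset (Finset ℕ))
    (hD : ∀ S, S ∈ D ↔ S ⊆ range n ∧ Bad n f S) :
    D.card = ∑ k ∈ range (n - 2), (2 ^ (A n f k).card - 1) := by
  classical
  have h1 : ∀ k, ((A n f k).powerset.erase ∅).card = 2 ^ (A n f k).card - 1 := by
    intro k
    rw [card_erase_of_mem (empty_mem_powerset _), card_powerset]
  rw [← Finset.sum_congr rfl (fun k _ => h1 k), ← Finset.card_sigma]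
  symm
  apply Finset.card_bij (fun (a : (_ : ℕ) × Finset ℕ) _ => phi a.1 a.2)
  · rintro ⟨k, Y⟩ hY
    simp only [mem_sigma, mem_range, mem_erase, mem_powerset] at hY
    obtain ⟨hk, hY0, hYA⟩ := hY
    have hA : ∀ y ∈ Y, 1 ≤ y ∧ y ≤ n - 3 - k ∧ f y = false := by
      intro y hy
      have := hYA hy
      simp only [A, mem_filter, mem_Icc] at this
      exact ⟨this.1.1, this.1.2, this.2⟩
    obtain ⟨y0, hy0⟩ := Finset.nonempty_iff_ne_empty.2 hY0
    rw [hD]
    change phi k Y ⊆ range n ∧ Bad n f (phi k Y)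
    refine ⟨?_, ?_, ?_, k, ?_, ?_, ?_, ?_⟩
    · intro x hx
      rw [mem_phi] at hx
      rw [mem_range]
      rcases hx with hx | ⟨y, hy, rfl⟩
      · omega
      · have := hA y hy
        omega
    · rw [mem_phi]; left; omega
    · rw [mem_phi]
      rintro (hx | ⟨y, hy, hx⟩)
      · omega
      · have := hA y hy
        omega
    · intro j hj
      rw [mem_phi]; left; omega
    · rw [mem_phi]
      rintro (hx | ⟨y, hy, hx⟩)
      · omega
      · have := hA y hy
        omega
    · have := hA y0 hy0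
      exact ⟨y0 + k + 1, (mem_phi _ _ _).2 (Or.inr ⟨y0, hy0, rfl⟩), by omega⟩
    · intro x hx hx2
      rw [mem_phi] at hx
      rcases hx with hx | ⟨y, hy, rfl⟩
      · omega
      · have := hA y hy
        have e : y + k + 1 - k - 1 = y := by omega
        rw [e]; exact this.2.2
  · rintro ⟨k, Y⟩ hY ⟨l, Y'⟩ hY' h
    simp only [mem_sigma, mem_range, mem_erase, mem_powerset] at hY hY'
    obtain ⟨hk, hY0, hYA⟩ := hY
    obtain ⟨hl, hY0', hYA'⟩ := hY'
    have h' : phi k Y = phi l Y' := h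
    have hA : ∀ y ∈ Y, 1 ≤ y := by
      intro y hy
      have := hYA hy
      simp only [A, mem_filter, mem_Icc] at this
      exact this.1.1
    have hA' : ∀ y ∈ Y', 1 ≤ y := by
      intro y hy
      have := hYA' hy
      simp only [A, mem_filter, mem_Icc] at this
      exact this.1.1
    have hkl : k = l := by
      rcases lt_trichotomy k l with hlt | heq | hgt
      · exfalso
        have m1 : k + 1 ∈ phi l Y' := (mem_phi _ _ _).2 (Or.inl (by omega))
        rw [← h', mem_phi] at m1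
        rcases m1 with hx | ⟨y, hy, hx⟩
        · omega
        · have := hA y hy
          omega
      · exact heq
      · exfalso
        have m1 : l + 1 ∈ phi k Y := (mem_phi _ _ _).2 (Or.inl (by omega))
        rw [h', mem_phi] at m1
        rcases m1 with hx | ⟨y, hy, hx⟩
        · omega
        · have := hA' y hy
          omega
    subst hkl
    have hYY : Y = Y' := by
      ext y
      constructor
      · intro hy
        have m1 : y + k + 1 ∈ phi k Y := (mem_phi _ _ _).2 (Or.inr ⟨y, hy, rfl⟩)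
        have h2 := hA y hy
        rw [h', mem_phi] at m1
        rcases m1 with hx | ⟨z, hz, hx⟩
        · omega
        · have : z = y := by omega
          rw [← this]; exact hz
      · intro hy
        have m1 : y + k + 1 ∈ phi k Y' := (mem_phi _ _ _).2 (Or.inr ⟨y, hy, rfl⟩)
        have h2 := hA' y hy
        rw [← h', mem_phi] at m1
        rcases m1 with hx | ⟨z, hz, hx⟩
        · omega
        · have : z = y := by omega
          rw [← this]; exact hz
    rw [hYY]
  · intro S hS
    rw [hD] at hS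
    obtain ⟨hSn, h0, hl, k, hk1, hk2, ⟨x0, hx0, hkx0⟩, hk4⟩ := hS
    have hlt : ∀ x ∈ S, x < n := fun x hx => mem_range.1 (hSn hx)
    have hne : ∀ x ∈ S, x ≠ n - 1 := fun x hx h => hl (h ▸ hx)
    have hne2 : ∀ x ∈ S, x ≠ k + 1 := fun x hx h => hk2 (h ▸ hx)
    refine ⟨⟨k, (S.filter fun x => k + 2 ≤ x).image fun x => x - k - 1⟩, ?_, ?_⟩
    · simp only [mem_sigma, mem_range, mem_erase, mem_powerset]
      have a1 := hlt x0 hx0
      have a2 := hne x0 hx0
      have a3 := hne2 x0 hx0
      refine ⟨by omega, ?_, ?_⟩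
      · apply Finset.nonempty_iff_ne_empty.1
        exact ⟨x0 - k - 1, mem_image.2 ⟨x0, mem_filter.2 ⟨hx0, by omega⟩, rfl⟩⟩
      · intro y hy
        obtain ⟨x, hx, rfl⟩ := mem_image.1 hy
        obtain ⟨hx1, hx2⟩ := mem_filter.1 hx
        have b1 := hlt x hx1
        have b2 := hne x hx1
        simp only [A, mem_filter, mem_Icc]
        exact ⟨⟨by omega, by omega⟩, hk4 x hx1 hx2⟩
    · ext x
      simp only [mem_phi, mem_image, mem_filter]
      constructor
      · rintro (hx | ⟨y, ⟨z, ⟨hz1, hz2⟩, rfl⟩, rfl⟩)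
        · exact hk1 x (by omega)
        · have e : z - k - 1 + k + 1 = z := by omega
          rw [e]; exact hz1
      · intro hx
        have b3 := hne2 x hx
        by_cases hxk : x < k + 1
        · exact Or.inl hxk
        · exact Or.inr ⟨x - k - 1, ⟨x, ⟨hx, by omega⟩, rfl⟩, by omega⟩

theorem sum_refl (n : ℕ) (hn : 3 ≤ n) (f : ℕ → Bool) :
    ∑ k ∈ range (n - 2), (2 ^ (A n f k).card - 1) =
      ∑ r ∈ range (n - 2), (2 ^ ((Icc 1 r).filter fun y => f y = false).card - 1) := by
  rw [← Finset.sum_range_reflect]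
  apply Finset.sum_congr rfl
  intro k hk
  rw [mem_range] at hk
  have e : n - 3 - (n - 2 - 1 - k) = k := by omega
  simp only [A, e]

theorem exk (n : ℕ) (S : Finset ℕ) (h0 : 0 ∈ S) (hl : n - 1 ∉ S) :
    ∃ k, (∀ j ≤ k, j ∈ S) ∧ k + 1 ∉ S := by
  classical
  have hex : ∃ m, m ∉ S := ⟨n - 1, hl⟩
  have hm : Nat.find hex ∉ S := Nat.find_spec hex
  have hmin : ∀ j < Nat.find hex, j ∈ S := by
    intro j hj
    by_contra hc
    exact Nat.find_min hex hj hc
  have hm0 : Nat.find hex ≠ 0 := by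
    intro h
    rw [h] at hm
    exact hm h0
  refine ⟨Nat.find hex - 1, fun j hj => hmin j (by omega), ?_⟩
  have e : Nat.find hex - 1 + 1 = Nat.find hex := by omega
  rw [e]; exact hm

theorem unik (S : Finset ℕ) (k l : ℕ) (h1 : ∀ j ≤ k, j ∈ S) (h2 : k + 1 ∉ S)
    (h3 : ∀ j ≤ l, j ∈ S) (h4 : l + 1 ∉ S) : k = l := by
  rcases lt_trichotomy k l with h | h | h
  · exact absurd (h3 (k + 1) (by omega)) h2
  · exact h
  · exact absurd (h1 (l + 1) (by omega)) h4

theorem cnt : Pool.Agent.W213.MG.CNT := by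
  classical
  intro n f hn
  have hU : Pool.Agent.W213.MG.U n f = ∑ k ∈ range (n - 2), (2 ^ (A n f k).card - 1) := by
    rw [sum_refl n hn f]
    rfl
  have key : ∀ S : Finset ℕ, ¬ Pool.Agent.W213.MG.Good n f S ↔ Bad n f S := by
    intro S
    constructor
    · intro h
      unfold Pool.Agent.W213.MG.Good at h
      rw [not_or, not_or, not_not] at h
      obtain ⟨h0, hl, h3⟩ := h
      obtain ⟨k, hk1, hk2⟩ := exk n S h0 hl
      refine ⟨h0, hl, k, hk1, hk2, ?_, ?_⟩
      · by_contra hc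
        push Not at hc
        exact h3 ⟨k, hk1, hk2, Or.inl hc⟩
      · intro x hx hxk
        by_contra hc
        rw [Bool.not_eq_false] at hc
        exact h3 ⟨k, hk1, hk2, Or.inr ⟨x, hx, hxk, hc⟩⟩
    · rintro ⟨h0, hl, k, hk1, hk2, ⟨x, hx, hkx⟩, h4⟩ hg
      rcases hg with hg | hg | ⟨l, hl1, hl2, hl3⟩
      · exact hg h0
      · exact hl hg
      · have e := unik S k l hk1 hk2 hl1 hl2
        subst e
        rcases hl3 with h5 | ⟨y, hy, hy1, hy2⟩
        · have := h5 x hx
          omega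
        · rw [h4 y hy hy1] at hy2
          exact absurd hy2 (by simp)
  have hB := card_bad n hn f
    ((range n).powerset.filter (fun S => ¬ Pool.Agent.W213.MG.Good n f S)) (by
      intro S
      rw [mem_filter, mem_powerset, key])
  have hT := Finset.card_filter_add_card_filter_not (s := (range n).powerset)
    (fun S => Pool.Agent.W213.MG.Good n f S)
  rw [card_powerset, card_range] at hT
  rw [hU, ← hB]
  convert hT using 2

end Pool.Agent.W208.MG
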